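import Mathlib
import Pool.Agent.J4.H38.BP.Defs

/-! Project BP (helper38), piece B4: the sieve count for the forms `p - z + h` and `N + t - p`. -/

set_option autoImplicit false

namespace Pool.Agent.J4.H71.BP

open Finset Filter
open Pool.Agent.Y822
open Pool.Agent.W41 (JJ)
open Pool.Agent.J4.H38.SR
open Pool.Agent.J4.H38.DV
open Pool.Agent.J4.H38.BP
open Pool.Agent.H373R2.T7 (pz Vz mem_pz)

/-- the number of the residues `r` modulo `p` with `p ∣ r + c + s` for some `s ∈ S` -/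
lemma card_res (S : Finset ℤ) {p : ℕ} (hp : 0 < p) (c : ℤ) :
    ((range p).filter (fun r : ℕ => ∃ s ∈ S, (p : ℤ) ∣ (r : ℤ) + c + s)).card = eZ S p := by
  classical
  have hp0 : (0 : ℤ) < p := by exact_mod_cast hp
  unfold eZ
  refine card_bij (fun r _ => (-(r : ℤ) - c) % p) ?_ ?_ ?_
  · intro r hr
    rw [mem_filter] at hr
    obtain ⟨_, s, hs, hd⟩ := hr
    rw [mem_image]
    refine ⟨s, hs, ?_⟩
    refine (Int.emod_emod_of_dvd _ (dvd_refl (p : ℤ)) ▸ ?_ : s % (p : ℤ) = (-(r : ℤ) - c) % p)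
    rw [Int.emod_emod_of_dvd _ (dvd_refl (p : ℤ))]
    apply Int.ModEq.symm
    rw [Int.modEq_iff_dvd]
    have : s - (-(r : ℤ) - c) = (r : ℤ) + c + s := by ring
    rw [this]
    exact hd
  · intro r hr r' hr' h
    rw [mem_filter, mem_range] at hr hr'
    have h1 : (-(r : ℤ) - c) ≡ (-(r' : ℤ) - c) [ZMOD p] := h
    rw [Int.modEq_iff_dvd] at h1
    have h2 : -(r' : ℤ) - c - (-(r : ℤ) - c) = (r : ℤ) - r' := by ring
    rw [h2] at h1
    have h3 : (r' : ℤ) ≡ (r : ℤ) [ZMOD p] := (Int.modEq_iff_dvd).2 h1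
    have h4 : r' ≡ r [MOD p] := (Int.natCast_modEq_iff).1 h3
    exact (Nat.ModEq.eq_of_lt_of_lt h4 hr'.1 hr.1).symm
  · intro b hb
    rw [mem_image] at hb
    obtain ⟨s, hs, rfl⟩ := hb
    have hnn : 0 ≤ (-c - s) % (p : ℤ) := Int.emod_nonneg _ hp0.ne'
    have hlt : (-c - s) % (p : ℤ) < p := Int.emod_lt_of_pos _ hp0
    have hto : ((((-c - s) % (p : ℤ)).toNat : ℕ) : ℤ) = (-c - s) % (p : ℤ) := Int.toNat_of_nonneg hnn
    refine ⟨((-c - s) % (p : ℤ)).toNat, ?_, ?_⟩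
    · rw [mem_filter, mem_range]
      refine ⟨by omega, s, hs, ?_⟩
      rw [hto]
      have h1 := Int.mod_modEq (-c - s) p
      have h2 := (Int.modEq_iff_dvd).1 h1.symm
      have h3 : (-c - s) % (p : ℤ) + c + s = (-c - s) % (p : ℤ) - (-c - s) := by ring
      rw [h3]
      exact h2
    · show (-((((-c - s) % (p : ℤ)).toNat : ℕ) : ℤ) - c) % (p : ℤ) = s % (p : ℤ)
      rw [hto]
      have h1 := Int.mod_modEq (-c - s) p
      have h2 := (Int.modEq_iff_dvd).1 h1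
      apply Int.ModEq.symm
      apply (Int.modEq_iff_dvd).2
      have h3 : -((-c - s) % (p : ℤ)) - c - s = -c - s - (-c - s) % (p : ℤ) := by ring
      rw [h3]
      exact h2

lemma fT_eZ (T0 : Finset ℕ) (z : ℕ) {p : ℕ} (hp : 0 < p) : fT T0 p = eZ (fz T0 z) p := by
  classical
  rw [← card_res (fz T0 z) hp (z : ℤ)]
  unfold fT
  congr 1
  apply filter_congr
  intro r _
  unfold fz
  constructor
  · rintro ⟨t, ht, hd⟩
    refine ⟨(t : ℤ) - z, mem_image.2 ⟨t, ht, rfl⟩, ?_⟩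
    have : (r : ℤ) + z + ((t : ℤ) - z) = ((r + t : ℕ) : ℤ) := by push_cast; ring
    rw [this]
    exact_mod_cast hd
  · rintro ⟨s, hs, hd⟩
    rw [mem_image] at hs
    obtain ⟨t, ht, rfl⟩ := hs
    refine ⟨t, ht, ?_⟩
    have : (r : ℤ) + z + ((t : ℤ) - z) = ((r + t : ℕ) : ℤ) := by push_cast; ring
    rw [this] at hd
    exact_mod_cast hd

open Classical in
theorem bcntG (m k Δ : ℕ) : ∃ C0 : ℕ, 1 ≤ C0 ∧ ∀ b : ℕ, C0 ≤ b → ∀ᶠ N : ℕ in atTop, ∀ T0 : Finset ℕ, T0.card = m →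
    (∀ h ∈ T0, h ≤ Δ) → ∀ z ∈ T0, ∀ w y y0 : ℕ, 2 ≤ w → Δ < w → w ≤ y → y ≤ y0 → y0 ^ (C0 * b) ≤ N → ∀ H : ℕ,
    ∀ T ⊆ AW w N H, T.card ≤ k →
    |Fs (muB T0 z y0) N y T - N * VT y0 T0 * PB (fz T0 z) (sG N T) w y| ≤
      (1 / 2) ^ b * (N * VT y0 T0 * PB (fz T0 z) (sG N T) w y) + (N : ℝ) ^ (1 / 2 : ℝ) := by
  obtain ⟨C1, K0, hC1, hK0, hfl⟩ := Pool.Agent.TH892.SW.fl_set (m + k)
  refine ⟨32 * C1, by omega, ?_⟩
  intro b hb
  have hb1 : 1 ≤ b := by omega
  have hlarge : ∀ᶠ N : ℕ in atTop, 3 * (K0 : ℝ) * (N : ℝ) ^ (1 / 4 : ℝ) + Δ ≤ (N : ℝ) ^ (1 / 2 : ℝ) := by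
    have ht : Tendsto (fun N : ℕ => (N : ℝ) ^ (1 / 4 : ℝ)) atTop atTop :=
      (tendsto_rpow_atTop (by norm_num)).comp tendsto_natCast_atTop_atTop
    filter_upwards [ht.eventually_ge_atTop (3 * (K0 : ℝ) + Δ + 1), eventually_ge_atTop 1] with N hN hN1
    have h0 : (0 : ℝ) ≤ N := Nat.cast_nonneg _
    have e : (N : ℝ) ^ (1 / 2 : ℝ) = (N : ℝ) ^ (1 / 4 : ℝ) * (N : ℝ) ^ (1 / 4 : ℝ) := by
      rw [← Real.rpow_add (by exact_mod_cast hN1)]
      norm_num
    rw [e]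
    have h1 : (0 : ℝ) ≤ K0 := Nat.cast_nonneg _
    have h2 : (0 : ℝ) ≤ Δ := Nat.cast_nonneg _
    have h3 : (1 : ℝ) ≤ (N : ℝ) ^ (1 / 4 : ℝ) := by linarith
    nlinarith
  filter_upwards [hlarge, eventually_ge_atTop (Δ + 1)] with N hN hNΔ
  intro T0 hT0 hT0Δ z hz w y y0 hw hΔw hwy hyy0 hy0N H T hT hTk
  have hzΔ := hT0Δ z hz
  have hy02 : 2 ≤ y0 := by omega
  obtain ⟨R, hR⟩ : ∃ R : ℕ → ℕ → Prop, ∀ p x, R p x ↔
      ((∃ h ∈ T0, p ∣ x + h) ∨ (p ≤ y ∧ ∃ t ∈ T, (p : ℤ) ∣ (N : ℤ) + t - z - x)) :=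
    ⟨_, fun _ _ => Iff.rfl⟩
  -- the residue classes
  have hmT0 : T0.card ≤ w := by
    have h1 : T0 ⊆ range (Δ + 1) := fun h hh => mem_range.2 (by have := hT0Δ h hh; omega)
    have h2 := card_le_card h1
    rw [card_range] at h2
    omega
  have hr1 : ∀ p : ℕ, p.Prime → (p ≤ w ∨ y < p) → ((range p).filter (fun x => R p x)).card = fT T0 p := by
    intro p hp hc
    unfold fT
    congr 1
    apply filter_congr
    intro x _
    rw [hR]
    constructor
    · rintro (h | ⟨hpy, t, ht, hd⟩)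
      · exact h
      · rcases hc with hc | hc
        · refine ⟨z, hz, ?_⟩
          have h1 := (mem_filter.1 (hT ht)).2
          have h2 : p ∣ N + t := (dvd_prod_of_mem (fun p => p) (mem_pz.2 ⟨hc, hp⟩)).trans h1
          have h3 : (p : ℤ) ∣ (N : ℤ) + t := by exact_mod_cast h2
          have h4 : (p : ℤ) ∣ (x : ℤ) + z := by
            have : (x : ℤ) + z = ((N : ℤ) + t) - ((N : ℤ) + t - z - x) := by ring
            rw [this]
            exact dvd_sub h3 hd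
          exact_mod_cast h4
        · omega
    · intro h
      exact Or.inl h
  have hr2 : ∀ p : ℕ, p.Prime → p ≤ y → ((range p).filter (fun x => R p x)).card = eZ (fz T0 z ∪ sG N T) p := by
    intro p hp hpy
    rw [← card_res (fz T0 z ∪ sG N T) hp.pos (z : ℤ)]
    congr 1
    apply filter_congr
    intro x _
    rw [hR]
    constructor
    · rintro (⟨h, hh, hd⟩ | ⟨_, t, ht, hd⟩)
      · refine ⟨(h : ℤ) - z, mem_union_left _ (mem_image.2 ⟨h, hh, rfl⟩), ?_⟩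
        have : (x : ℤ) + z + ((h : ℤ) - z) = ((x + h : ℕ) : ℤ) := by push_cast; ring
        rw [this]
        exact_mod_cast hd
      · refine ⟨-((N : ℤ) + t), mem_union_right _ (mem_image.2 ⟨t, ht, rfl⟩), ?_⟩
        have : (x : ℤ) + z + -((N : ℤ) + t) = -((N : ℤ) + t - z - x) := by ring
        rw [this]
        exact (dvd_neg).2 hd
    · rintro ⟨s, hs, hd⟩
      rcases mem_union.1 hs with h | h
      · obtain ⟨u, hh, rfl⟩ := mem_image.1 h
        refine Or.inl ⟨u, hh, ?_⟩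
        have : (x : ℤ) + z + ((u : ℤ) - z) = ((x + u : ℕ) : ℤ) := by push_cast; ring
        rw [this] at hd
        exact_mod_cast hd
      · obtain ⟨t, ht, rfl⟩ := mem_image.1 h
        refine Or.inr ⟨hpy, t, ht, ?_⟩
        have : (x : ℤ) + z + -((N : ℤ) + t) = -((N : ℤ) + t - z - x) := by ring
        rw [this] at hd
        exact (dvd_neg).1 hd
  have hez : ∀ (S : Finset ℤ) (p : ℕ), eZ S p ≤ S.card := fun S p => card_image_le
  have hfzc : (fz T0 z).card ≤ T0.card := card_image_le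
  have hsGc : (sG N T).card ≤ T.card := card_image_le
  have hrc : ∀ p ∈ pz y0, ((range p).filter (fun x => R p x)).card ≤ m + k := by
    intro p hp
    have hpp := (mem_pz.1 hp).2
    rcases le_or_gt p y with h | h
    · rw [hr2 p hpp h]
      refine (hez _ _).trans ((card_union_le _ _).trans ?_)
      omega
    · rw [hr1 p hpp (Or.inr h), fT_eZ T0 z hpp.pos]
      refine (hez _ _).trans ?_
      omega
  have key := hfl b (by omega) y0 hy02 (N - z) (pz y0) R (fun p hp => by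
    exact ⟨(mem_pz.1 hp).2, (mem_pz.1 hp).1, hrc p hp⟩)
  -- the product
  have hprod : ∏ p ∈ pz y0, (1 - (((range p).filter (fun a => R p a)).card : ℝ) / p) =
      VT y0 T0 * PB (fz T0 z) (sG N T) w y := by
    have h1 : ∀ p ∈ pz y0, (1 - (((range p).filter (fun a => R p a)).card : ℝ) / p) =
        (1 - (fT T0 p : ℝ) / p) * (if w < p ∧ p ≤ y then
          (1 - ((eZ (fz T0 z ∪ sG N T) p : ℝ) - eZ (fz T0 z) p) / ((p : ℝ) - eZ (fz T0 z) p)) else 1) := by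
      intro p hp
      have hpp := (mem_pz.1 hp).2
      split_ifs with h
      · rw [hr2 p hpp h.2, fT_eZ T0 z hpp.pos]
        have hlt : eZ (fz T0 z) p < p := by
          have := hez (fz T0 z) p
          omega
        have hlt' : (eZ (fz T0 z) p : ℝ) < p := by exact_mod_cast hlt
        have hp0 : (p : ℝ) ≠ 0 := by exact_mod_cast hpp.ne_zero
        have hne : (p : ℝ) - eZ (fz T0 z) p ≠ 0 := by
          intro h0
          linarith
        field_simp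
        ring
      · rw [mul_one, hr1 p hpp (by omega)]
    have e1 : ∏ p ∈ pz y0, (1 - (fT T0 p : ℝ) / p) = VT y0 T0 := by
      unfold VT
      rw [pz_eq]
    have e2 : ∏ p ∈ pz y0, (if w < p ∧ p ≤ y then
          (1 - ((eZ (fz T0 z ∪ sG N T) p : ℝ) - eZ (fz T0 z) p) / ((p : ℝ) - eZ (fz T0 z) p)) else 1) =
        PB (fz T0 z) (sG N T) w y := by
      unfold Pool.Agent.J4.H38.BP.PB
      rw [← prod_filter]
      refine prod_congr ?_ fun _ _ => rfl
      ext p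
      rw [mem_filter, mem_filter, mem_pz, mem_pz]
      constructor
      · rintro ⟨⟨_, h2⟩, h3, h4⟩
        exact ⟨⟨h4, h2⟩, h3⟩
      · rintro ⟨⟨h1, h2⟩, h3⟩
        exact ⟨⟨h1.trans hyy0, h2⟩, h3, h1⟩
    rw [prod_congr rfl h1, prod_mul_distrib, e1, e2]
  rw [hprod] at key
  -- the count
  have hRmod : ∀ p x, R p (x % p) ↔ R p x := by
    intro p x
    rw [hR, hR]
    have e1 : ∀ h : ℕ, p ∣ x % p + h ↔ p ∣ x + h := by
      intro h
      have : x % p + h ≡ x + h [MOD p] := Nat.ModEq.add_right h (Nat.mod_modEq _ p)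
      exact ⟨fun h1 => (Nat.modEq_zero_iff_dvd).1 (this.symm.trans ((Nat.modEq_zero_iff_dvd).2 h1)),
        fun h1 => (Nat.modEq_zero_iff_dvd).1 (this.trans ((Nat.modEq_zero_iff_dvd).2 h1))⟩
    have e2 : ∀ c : ℤ, (p : ℤ) ∣ c - (x % p : ℕ) ↔ (p : ℤ) ∣ c - x := by
      intro c
      have h1 : (p : ℤ) ∣ (x : ℤ) - (x % p : ℕ) := by
        have := Int.mod_modEq (x : ℤ) p
        have h2 := (Int.modEq_iff_dvd).1 this
        push_cast
        exact h2
      constructor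
      · intro h
        have : c - (x : ℤ) = (c - (x % p : ℕ)) - ((x : ℤ) - (x % p : ℕ)) := by ring
        rw [this]
        exact dvd_sub h h1
      · intro h
        have : c - ((x % p : ℕ) : ℤ) = (c - x) + ((x : ℤ) - (x % p : ℕ)) := by ring
        rw [this]
        exact dvd_add h h1
    simp only [e1, e2]
  have hcount : Fs (muB T0 z y0) N y T =
      (((Icc 1 (N - z)).filter (fun n => ∀ p ∈ pz y0, ¬ R p (n % p))).card : ℝ) := by
    unfold Fs
    have h1 : ∀ n ∈ Icc 1 N, muB T0 z y0 n * ∏ t ∈ T, ro y (N - n + t) =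
        (if (z < n ∧ (∀ h ∈ T0, Ro y0 (n - z + h)) ∧ ∀ t ∈ T, Ro y (N - n + t)) then (1 : ℝ) else 0) := by
      intro n _
      have h2 : ∏ t ∈ T, ro y (N - n + t) = if (∀ t ∈ T, Ro y (N - n + t)) then 1 else 0 := rT_eq T y (N - n)
      rw [h2]
      unfold muB
      rw [rT_eq]
      by_cases e1 : z < n
      · by_cases e2 : (∀ h ∈ T0, Ro y0 (n - z + h))
        · by_cases e3 : (∀ t ∈ T, Ro y (N - n + t))
          · rw [if_pos e1, if_pos e2, if_pos e3, if_pos ⟨e1, e2, e3⟩, mul_one]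
          · have hn : ¬ (z < n ∧ (∀ h ∈ T0, Ro y0 (n - z + h)) ∧ ∀ t ∈ T, Ro y (N - n + t)) := fun h => e3 h.2.2
            rw [if_neg hn, if_neg e3, mul_zero]
        · have hn : ¬ (z < n ∧ (∀ h ∈ T0, Ro y0 (n - z + h)) ∧ ∀ t ∈ T, Ro y (N - n + t)) := fun h => e2 h.2.1
          rw [if_neg hn, if_pos e1, if_neg e2, zero_mul]
      · have hn : ¬ (z < n ∧ (∀ h ∈ T0, Ro y0 (n - z + h)) ∧ ∀ t ∈ T, Ro y (N - n + t)) := fun h => e1 h.1
        rw [if_neg hn, if_neg e1, zero_mul]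
    rw [sum_congr rfl h1, ← sum_filter, sum_const, nsmul_eq_mul, mul_one]
    congr 1
    symm
    have hiff : ∀ x : ℕ, x + z ≤ N → ((∀ p ∈ pz y0, ¬ R p (x % p)) ↔
        ((∀ h ∈ T0, Ro y0 (x + h)) ∧ ∀ t ∈ T, Ro y (N - (z + x) + t))) := by
      intro x hx
      have hcast : ∀ t : ℕ, ((N - (z + x) + t : ℕ) : ℤ) = (N : ℤ) + t - z - x := by
        intro t
        have : N - (z + x) + t + (z + x) = N + t := by omega
        have h2 : ((N - (z + x) + t + (z + x) : ℕ) : ℤ) = ((N + t : ℕ) : ℤ) := by rw [this]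
        push_cast at h2 ⊢
        linarith
      constructor
      · intro h
        refine ⟨fun u hu p hp hpy hd => ?_, fun t ht p hp hpy hd => ?_⟩
        · refine h p (mem_pz.2 ⟨hpy, hp⟩) ?_
          rw [hRmod, hR]
          exact Or.inl ⟨u, hu, hd⟩
        · refine h p (mem_pz.2 ⟨hpy.trans hyy0, hp⟩) ?_
          rw [hRmod, hR]
          refine Or.inr ⟨hpy, t, ht, ?_⟩
          rw [← hcast]
          exact_mod_cast hd
      · rintro ⟨h1, h2⟩ p hp hRp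
        rw [hRmod, hR] at hRp
        obtain ⟨hpy, hpp⟩ := mem_pz.1 hp
        rcases hRp with ⟨u, hu, hd⟩ | ⟨hpy', t, ht, hd⟩
        · exact h1 u hu p hpp hpy hd
        · rw [← hcast] at hd
          exact h2 t ht p hpp hpy' (by exact_mod_cast hd)
    refine card_bij (fun x _ => z + x) ?_ ?_ ?_
    · intro x hx
      rw [mem_filter, mem_Icc] at hx
      obtain ⟨⟨hx1, hx2⟩, hx3⟩ := hx
      have hxN : x + z ≤ N := by omega
      rw [mem_filter, mem_Icc]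
      obtain ⟨h1, h2⟩ := (hiff x hxN).1 hx3
      refine ⟨⟨by omega, by omega⟩, by omega, ?_, h2⟩
      intro u hu
      have : z + x - z + u = x + u := by omega
      rw [this]
      exact h1 u hu
    · intro x _ x' _ h
      have h' : z + x = z + x' := h
      omega
    · intro n hn
      rw [mem_filter, mem_Icc] at hn
      obtain ⟨⟨hn1, hn2⟩, hzn, h1, h2⟩ := hn
      refine ⟨n - z, ?_, ?_⟩
      · rw [mem_filter, mem_Icc]
        refine ⟨⟨by omega, by omega⟩, (hiff (n - z) (by omega)).2 ⟨h1, ?_⟩⟩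
        intro t ht
        have : z + (n - z) = n := by omega
        rw [this]
        exact h2 t ht
      · show z + (n - z) = n
        omega
  rw [hcount]
  set V := VT y0 T0 * PB (fz T0 z) (sG N T) w y with hV
  have hV0 : 0 ≤ V := by
    rw [← hprod]
    refine prod_nonneg fun p _ => ?_
    rw [sub_nonneg]
    apply div_le_one_of_le₀ _ (Nat.cast_nonneg _)
    exact_mod_cast (card_filter_le _ _).trans (card_range p).le
  have hV1 : V ≤ 1 := by
    rw [← hprod]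
    refine prod_le_one (fun p _ => ?_) (fun p _ => ?_)
    · rw [sub_nonneg]
      apply div_le_one_of_le₀ _ (Nat.cast_nonneg _)
      exact_mod_cast (card_filter_le _ _).trans (card_range p).le
    · have : 0 ≤ (((range p).filter (fun a => R p a)).card : ℝ) / p := by positivity
      linarith
  have hNz : ((N - z : ℕ) : ℝ) = (N : ℝ) - z := by
    rw [Nat.cast_sub (by omega)]
  have hz0 : (0 : ℝ) ≤ z := Nat.cast_nonneg _
  have hzΔ' : (z : ℝ) ≤ Δ := by exact_mod_cast hzΔ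
  have hE : ((JJ y0 : ℝ) + 2) * ((y0 : ℝ) ^ (2 * (C1 * b)) * (K0 * (y0 : ℝ) ^ (2 * (C1 * b)))) ≤
      3 * (K0 : ℝ) * (N : ℝ) ^ (1 / 4 : ℝ) := by
    have hJ : (JJ y0 : ℝ) + 2 ≤ 3 * y0 := by
      have h1 : Nat.log 2 y0 < y0 := Nat.log_lt_self 2 (by omega)
      have h2 : Nat.log 2 (Nat.log 2 y0) ≤ Nat.log 2 y0 := Nat.log_le_self 2 _
      have h3 : JJ y0 + 2 ≤ 3 * y0 := by
        unfold JJ
        omega
      exact_mod_cast h3
    have hy01 : (1 : ℝ) ≤ y0 := by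
      have : 1 ≤ y0 := by omega
      exact_mod_cast this
    have hCb : 1 ≤ C1 * b := Nat.mul_pos hC1 hb1
    have h4 : (y0 : ℝ) * ((y0 : ℝ) ^ (2 * (C1 * b)) * (y0 : ℝ) ^ (2 * (C1 * b))) ≤ (y0 : ℝ) ^ (8 * (C1 * b)) := by
      have : (y0 : ℝ) * ((y0 : ℝ) ^ (2 * (C1 * b)) * (y0 : ℝ) ^ (2 * (C1 * b))) = (y0 : ℝ) ^ (1 + (2 * (C1 * b) + 2 * (C1 * b))) := by
        rw [pow_add, pow_add, pow_one]
      rw [this]
      exact pow_le_pow_right₀ hy01 (by omega)
    have h5 : (y0 : ℝ) ^ (8 * (C1 * b)) ≤ (N : ℝ) ^ (1 / 4 : ℝ) := by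
      have h6 : ((y0 : ℝ) ^ (8 * (C1 * b))) ^ 4 ≤ N := by
        rw [← pow_mul]
        have e : 8 * (C1 * b) * 4 = 32 * C1 * b := by ring
        rw [e]
        exact_mod_cast hy0N
      have h7 : 0 ≤ (y0 : ℝ) ^ (8 * (C1 * b)) := by positivity
      calc (y0 : ℝ) ^ (8 * (C1 * b)) = (((y0 : ℝ) ^ (8 * (C1 * b))) ^ 4) ^ (1 / 4 : ℝ) := by
            rw [← Real.rpow_natCast ((y0 : ℝ) ^ (8 * (C1 * b))) 4, ← Real.rpow_mul h7]
            norm_num
        _ ≤ (N : ℝ) ^ (1 / 4 : ℝ) := Real.rpow_le_rpow (by positivity) h6 (by norm_num)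
    calc ((JJ y0 : ℝ) + 2) * ((y0 : ℝ) ^ (2 * (C1 * b)) * (K0 * (y0 : ℝ) ^ (2 * (C1 * b))))
        ≤ (3 * y0) * ((y0 : ℝ) ^ (2 * (C1 * b)) * (K0 * (y0 : ℝ) ^ (2 * (C1 * b)))) :=
          mul_le_mul_of_nonneg_right hJ (by positivity)
      _ = 3 * (K0 : ℝ) * ((y0 : ℝ) * ((y0 : ℝ) ^ (2 * (C1 * b)) * (y0 : ℝ) ^ (2 * (C1 * b)))) := by ring
      _ ≤ 3 * (K0 : ℝ) * (N : ℝ) ^ (1 / 4 : ℝ) := mul_le_mul_of_nonneg_left (h4.trans h5) (by positivity)
  have e0 : (N : ℝ) * VT y0 T0 * PB (fz T0 z) (sG N T) w y = N * V := by rw [hV]; ring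
  rw [e0]
  rw [hNz] at key
  set S : ℝ := (((Icc 1 (N - z)).filter (fun n => ∀ p ∈ pz y0, ¬ R p (n % p))).card : ℝ) with hS
  have h2b : (0 : ℝ) < (1 / 2) ^ b := by positivity
  have hN0 : (0 : ℝ) ≤ N := Nat.cast_nonneg _
  have k1 := abs_sub_le S (((N : ℝ) - z) * V) (N * V)
  have k2 : |((N : ℝ) - z) * V - N * V| ≤ Δ := by
    have : ((N : ℝ) - z) * V - N * V = -(z * V) := by ring
    rw [this, abs_neg, abs_of_nonneg (mul_nonneg hz0 hV0)]
    nlinarith
  have k3 : (1 / 2 : ℝ) ^ b * (((N : ℝ) - z) * V) ≤ (1 / 2 : ℝ) ^ b * (N * V) := by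
    apply mul_le_mul_of_nonneg_left _ h2b.le
    nlinarith
  linarith

end Pool.Agent.J4.H71.BP
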